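import Pool.Agent.W785.FD.Stms

set_option autoImplicit false

/-! The basic inequality by nested balls. -/

open MeasureTheory Metric Set Filter
open scoped ENNReal NNReal Topology

namespace Pool.Agent.W351.FD.Iter

open Pool.Agent.W785.FD

theorem dbl_iter {X : Type*} [MetricSpace X] [MeasurableSpace X] (μ : Measure X) (D : ℝ)
    (hD : Dbl μ D) (x : X) (r : ℝ) (hr : 0 < r) (m : ℕ) :
    μ (ball x (2 ^ m * r)) ≤ ENNReal.ofReal D ^ m * μ (ball x r) := by
  induction m with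
  | zero => simp
  | succ m ih =>
    have h1 := hD.dbl x (2 ^ m * r) (by positivity)
    have h2 : (2:ℝ) ^ (m + 1) * r = 2 * (2 ^ m * r) := by ring
    rw [h2]
    refine h1.trans ?_
    rw [pow_succ', mul_assoc]
    gcongr

theorem dens_lower {X : Type*} [MetricSpace X] [MeasurableSpace X] (μ : Measure X) (D : ℝ)
    (hD : Dbl μ D) (U : Set X) (k : ℝ≥0∞) (y z : X) (r R : ℝ) (m : ℕ) (hr : 0 < r)
    (hsub : ball y r ⊆ ball z R) (hsub2 : ball z R ⊆ ball y (2 ^ m * r))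
    (hk : k ≤ dens μ U y r) :
    k / ENNReal.ofReal D ^ m ≤ dens μ U z R := by
  have h0 : μ (ball y r) ≠ 0 := (hD.pos y r hr).ne'
  have ht : μ (ball y r) ≠ ∞ := (hD.fin y r).ne
  have h1 : k * μ (ball y r) ≤ μ (U ∩ ball y r) := by
    have := hk
    unfold dens at this
    rwa [ENNReal.le_div_iff_mul_le (Or.inl h0) (Or.inl ht)] at this
  have h2 : μ (ball z R) ≠ 0 := fun h => h0 (measure_mono_null hsub h)
  have h3 : μ (ball z R) ≠ ∞ := (hD.fin z R).ne
  have hD0 : ENNReal.ofReal D ^ m ≠ 0 := by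
    refine pow_ne_zero _ ?_
    have := hD.one_le
    simp only [ne_eq, ENNReal.ofReal_eq_zero, not_le]
    linarith
  have hDt : ENNReal.ofReal D ^ m ≠ ∞ := ENNReal.pow_ne_top ENNReal.ofReal_ne_top
  unfold dens
  rw [ENNReal.le_div_iff_mul_le (Or.inl h2) (Or.inl h3)]
  calc k / ENNReal.ofReal D ^ m * μ (ball z R)
      ≤ k / ENNReal.ofReal D ^ m * (ENNReal.ofReal D ^ m * μ (ball y r)) := by
        gcongr
        exact (measure_mono hsub2).trans (dbl_iter μ D hD y r hr m)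
    _ = k * μ (ball y r) := by
        rw [div_eq_mul_inv, mul_assoc, ← mul_assoc (ENNReal.ofReal D ^ m)⁻¹,
          ENNReal.inv_mul_cancel hD0 hDt, one_mul]
    _ ≤ μ (U ∩ ball y r) := h1
    _ ≤ μ (U ∩ ball z R) := measure_mono (inter_subset_inter_right _ hsub)

theorem iter {X : Type*} [MetricSpace X] [ProperSpace X] [MeasurableSpace X] [BorelSpace X]
    (μ : Measure X) (D L k0 : ℝ) (hD : Dbl μ D) (hL : 1 ≤ L) (hk0 : 0 < k0)
    (V : Set X) (φ : X → ℝ) (g : X → ℝ≥0∞) (O : Set X) (hS : Sep μ V φ g O)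
    (E : X × ℝ → ℝ≥0∞) (K1 : ℝ≥0∞)
    (step : ∀ q : X × ℝ, 0 < q.2 → Amb μ V k0 q.1 q.2 → ∃ q' : X × ℝ,
      0 < q'.2 ∧ Amb μ V k0 q'.1 q'.2 ∧ q'.2 ≤ q.2 / 4 ∧ dist q'.1 q.1 ≤ (L + 2) * q.2 ∧
      E q' ≤ 2⁻¹ * E q ∧
      ENNReal.ofReal |mean μ φ q'.1 q'.2 - mean μ φ q.1 q.2| ≤ K1 * E q)
    (q0 : X × ℝ) (h0 : 0 < q0.2) (hA : Amb μ V k0 q0.1 q0.2) :
    ENNReal.ofReal (1 - mean μ φ q0.1 q0.2) ≤ 2 * K1 * E q0 := by
  classical
  choose! nx hx using step
  obtain ⟨q, hq0, hqs⟩ : ∃ q : ℕ → X × ℝ, q 0 = q0 ∧ ∀ n, q (n + 1) = nx (q n) :=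
    ⟨fun n => nx^[n] q0, rfl, fun n => Function.iterate_succ_apply' _ _ _⟩
  have hQ : ∀ n, 0 < (q n).2 ∧ Amb μ V k0 (q n).1 (q n).2 := by
    intro n
    induction n with
    | zero => rw [hq0]; exact ⟨h0, hA⟩
    | succ n ih => rw [hqs]; exact ⟨(hx _ ih.1 ih.2).1, (hx _ ih.1 ih.2).2.1⟩
  have hst : ∀ n, (q (n + 1)).2 ≤ (q n).2 / 4 ∧
      dist (q (n + 1)).1 (q n).1 ≤ (L + 2) * (q n).2 ∧ E (q (n + 1)) ≤ 2⁻¹ * E (q n) ∧
      ENNReal.ofReal |mean μ φ (q (n + 1)).1 (q (n + 1)).2 - mean μ φ (q n).1 (q n).2| ≤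
        K1 * E (q n) := by
    intro n
    rw [hqs]
    exact (hx _ (hQ n).1 (hQ n).2).2.2
  have hr : ∀ k j, (q (k + j)).2 ≤ (q k).2 * (1 / 4) ^ j := by
    intro k j
    induction j with
    | zero => simp
    | succ j ih =>
      have h1 := (hst (k + j)).1
      calc (q (k + (j + 1))).2 ≤ (q (k + j)).2 / 4 := h1
        _ ≤ (q k).2 * (1 / 4) ^ j / 4 := by linarith
        _ = (q k).2 * (1 / 4) ^ (j + 1) := by ring
  have hgeo : ∀ k j, dist (q (k + j)).1 (q (k + (j + 1))).1 ≤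
      ((L + 2) * (q k).2) * (1 / 4) ^ j := by
    intro k j
    rw [dist_comm]
    refine ((hst (k + j)).2.1).trans ?_
    have h1 := mul_le_mul_of_nonneg_left (hr k j) (by linarith : 0 ≤ L + 2)
    linarith
  obtain ⟨z, hz⟩ := cauchySeq_tendsto_of_complete
    (cauchySeq_of_le_geometric (1 / 4) ((L + 2) * (q 0).2) (by norm_num)
      (f := fun n => (q n).1) (fun n => by simpa using hgeo 0 n))
  have hdz : ∀ k, dist (q k).1 z ≤ 2 * (L + 2) * (q k).2 := by
    intro k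
    have hz' : Tendsto (fun j => (q (k + j)).1) atTop (𝓝 z) := by
      have h1 := hz.comp (tendsto_add_atTop_nat k)
      simpa [Function.comp_def, add_comm] using h1
    have h2 := dist_le_of_le_geometric_of_tendsto₀ (1 / 4) ((L + 2) * (q k).2) (by norm_num)
      (f := fun j => (q (k + j)).1) (hgeo k) hz'
    have h3 : dist (q k).1 z ≤ (L + 2) * (q k).2 / (1 - 1 / 4) := by simpa using h2
    have hp := (hQ k).1
    have h4 : 0 < (L + 2) * (q k).2 := by positivity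
    have h5 : (L + 2) * (q k).2 / (1 - 1 / 4) = 4 / 3 * ((L + 2) * (q k).2) := by ring
    rw [h5] at h3
    nlinarith
  have hr0 : Tendsto (fun k => (q k).2) atTop (𝓝 0) := by
    refine squeeze_zero (fun k => (hQ k).1.le) (fun k => by simpa using hr 0 k) ?_
    have h1 := (tendsto_pow_atTop_nhds_zero_of_lt_one (r := (4 : ℝ)⁻¹) (by norm_num)
      (by norm_num)).const_mul (q 0).2
    simpa using h1
  have hc0 : 0 < 2 * (L + 2) + 1 := by linarith
  have hRt : Tendsto (fun k => (2 * (L + 2) + 1) * (q k).2) atTop (𝓝[>] 0) := by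
    refine tendsto_nhdsWithin_iff.2 ⟨by simpa using hr0.const_mul (2 * (L + 2) + 1), ?_⟩
    exact Eventually.of_forall fun k => mul_pos hc0 (hQ k).1
  obtain ⟨m, hm⟩ : ∃ m : ℕ, 2 * (2 * (L + 2) + 1) < (2 : ℝ) ^ m :=
    pow_unbounded_of_one_lt _ (by norm_num)
  have hsub : ∀ k, ball (q k).1 (q k).2 ⊆ ball z ((2 * (L + 2) + 1) * (q k).2) := by
    intro k
    refine ball_subset_ball' ?_
    have := hdz k
    linarith
  have hsub2 : ∀ k, ball z ((2 * (L + 2) + 1) * (q k).2) ⊆ ball (q k).1 (2 ^ m * (q k).2) := by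
    intro k
    refine ball_subset_ball' ?_
    have h1 := hdz k
    rw [dist_comm] at h1
    have h2 := mul_le_mul_of_nonneg_right hm.le (hQ k).1.le
    have h3 := (hQ k).1
    nlinarith
  have hdens : ∀ U, (∀ k, ENNReal.ofReal k0 ≤ dens μ U (q k).1 (q k).2) → ¬ DZ μ U z := by
    intro U hU hDZ
    have h1 : Tendsto (fun k => dens μ U z ((2 * (L + 2) + 1) * (q k).2)) atTop (𝓝 0) :=
      hDZ.comp hRt
    have hc : 0 < ENNReal.ofReal k0 / ENNReal.ofReal D ^ m :=
      ENNReal.div_pos (by simpa using hk0) (ENNReal.pow_ne_top ENNReal.ofReal_ne_top)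
    have h2 := ge_of_tendsto h1 (Eventually.of_forall fun k =>
      dens_lower μ D hD U _ (q k).1 z (q k).2 _ m (hQ k).1 (hsub k) (hsub2 k) (hU k))
    exact absurd h2 (not_le.2 hc)
  have hzO : z ∈ O := by
    by_contra hz'
    rcases hS.alt z hz' with h | h
    · exact hdens V (fun k => (hQ k).2.1) h
    · exact hdens Vᶜ (fun k => (hQ k).2.2) h
  obtain ⟨ε, hε, hεO⟩ := Metric.isOpen_iff.1 hS.isOpen z hzO
  obtain ⟨k, hk⟩ := ((tendsto_nhds_of_tendsto_nhdsWithin hRt).eventually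
    (gt_mem_nhds hε)).exists
  have hmean : mean μ φ (q k).1 (q k).2 = 1 := by
    unfold mean
    have h1 : ∀ᵐ y ∂μ, y ∈ ball (q k).1 (q k).2 → φ y = (fun _ => (1:ℝ)) y :=
      Eventually.of_forall fun y hy =>
        hS.eq_one y (hεO (ball_subset_ball hk.le (hsub k hy)))
    rw [setAverage_congr_fun measurableSet_ball h1]
    exact setAverage_const (hD.pos _ _ (hQ k).1).ne' (hD.fin _ _).ne 1
  have hE : ∀ j, E (q j) ≤ (2⁻¹ : ℝ≥0∞) ^ j * E q0 := by
    intro j
    induction j with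
    | zero => simp [hq0]
    | succ j ih =>
      refine ((hst j).2.2.1).trans ?_
      rw [pow_succ', mul_assoc]
      gcongr
  have hsum : ∀ n, ENNReal.ofReal |mean μ φ (q n).1 (q n).2 - mean μ φ (q 0).1 (q 0).2| ≤
      ∑ j ∈ Finset.range n, K1 * ((2⁻¹ : ℝ≥0∞) ^ j * E q0) := by
    intro n
    induction n with
    | zero => simp
    | succ n ih =>
      rw [Finset.sum_range_succ]
      calc ENNReal.ofReal |mean μ φ (q (n + 1)).1 (q (n + 1)).2 - mean μ φ (q 0).1 (q 0).2|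
          ≤ ENNReal.ofReal (|mean μ φ (q n).1 (q n).2 - mean μ φ (q 0).1 (q 0).2| +
              |mean μ φ (q (n + 1)).1 (q (n + 1)).2 - mean μ φ (q n).1 (q n).2|) := by
            refine ENNReal.ofReal_le_ofReal ?_
            have := abs_sub_le (mean μ φ (q (n + 1)).1 (q (n + 1)).2) (mean μ φ (q n).1 (q n).2)
              (mean μ φ (q 0).1 (q 0).2)
            linarith
        _ ≤ ENNReal.ofReal |mean μ φ (q n).1 (q n).2 - mean μ φ (q 0).1 (q 0).2| +
            ENNReal.ofReal |mean μ φ (q (n + 1)).1 (q (n + 1)).2 - mean μ φ (q n).1 (q n).2| :=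
            ENNReal.ofReal_add_le
        _ ≤ _ := by
            refine add_le_add ih (((hst n).2.2.2).trans ?_)
            gcongr
            exact hE n
  calc ENNReal.ofReal (1 - mean μ φ q0.1 q0.2)
      ≤ ENNReal.ofReal |mean μ φ (q k).1 (q k).2 - mean μ φ (q 0).1 (q 0).2| := by
        refine ENNReal.ofReal_le_ofReal ?_
        rw [hmean, hq0]
        exact le_abs_self _
    _ ≤ ∑ j ∈ Finset.range k, K1 * ((2⁻¹ : ℝ≥0∞) ^ j * E q0) := hsum k
    _ ≤ ∑' j, K1 * ((2⁻¹ : ℝ≥0∞) ^ j * E q0) := ENNReal.sum_le_tsum _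
    _ = 2 * K1 * E q0 := by
        rw [ENNReal.tsum_mul_left, ENNReal.tsum_mul_right, ENNReal.tsum_geometric,
          ENNReal.one_sub_inv_two, inv_inv]
        ring

theorem main {X : Type*} [MetricSpace X] [ProperSpace X] [MeasurableSpace X] [BorelSpace X]
    (μ : Measure X) (p C L D : ℝ) (hD : Dbl μ D) (h : PI μ p C L) (h1 : S_STEPA μ p D L)
    (h2 : S_STEPB μ p L) : S_BASIC μ p := by
  intro τ hτ
  have hp := h.one_lt
  have hL := h.one_le
  have hD1 := hD.one_le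
  have hp0 : 0 < p := by linarith
  have hLB : L ≤ L * (L + 3) := by nlinarith
  have hLB1 : 1 ≤ L * (L + 3) := by linarith
  have hD2 : 1 ≤ D ^ 2 := by nlinarith
  have hk0 : 0 < 1 / (2 * D ^ 2) := by positivity
  have hk1 : 1 / (2 * D ^ 2) ≤ 1 / 2 := by
    refine one_div_le_one_div_of_le (by norm_num) ?_
    linarith
  obtain ⟨tauB, htB, hB⟩ := h2 (1 / (2 * D ^ 2)) hk0 hk1
  obtain ⟨KA, hKA, hA⟩ := h1 (L * (L + 3)) tauB hLB htB
  have h2p : (0 : ℝ) < 2 ^ (-p) := Real.rpow_pos_of_pos (by norm_num) _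
  obtain ⟨KB, hKB, hB'⟩ := hB (2 ^ (-p) / KA) (2 * (L * (L + 3)) + 1) (by positivity)
    (by linarith)
  obtain ⟨KC, hKC, hC⟩ := h1 (L * (L + 3)) τ hLB hτ
  have hip : 0 ≤ 1 / p := by positivity
  have hhalf : (ENNReal.ofReal (2 ^ (-p))) ^ (1 / p) = 2⁻¹ := by
    rw [ENNReal.ofReal_rpow_of_pos h2p, ← Real.rpow_mul (by norm_num)]
    have : -p * (1 / p) = -1 := by field_simp
    rw [this, Real.rpow_neg_one, ENNReal.ofReal_inv_of_pos (by norm_num)]
    simp
  obtain ⟨K1, hK1d⟩ : ∃ K1 : ℝ, K1 = KB + KA * (2 ^ (-p) / KA) ^ (1 / p) := ⟨_, rfl⟩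
  have hK1 : 0 < K1 := by rw [hK1d]; positivity
  refine ⟨2 * K1 * KC ^ (1 / p) + KC, 2 * (L * (L + 3)) + 1, by positivity, by linarith, ?_⟩
  intro V φ g O hS x r hr hAmb
  obtain ⟨y0, r0, hr0, -, -, hA0, he0, hm0⟩ := hC V φ g hS.meas hS.mphi hS.nonneg hS.le_one hS.ug
    x r hr hAmb
  have key := iter μ D L (1 / (2 * D ^ 2)) hD hL hk0 V φ g O hS
    (fun q => (ee μ p g (L * (L + 3)) q.1 q.2) ^ (1 / p)) (ENNReal.ofReal K1) ?_ (y0, r0) hr0 hA0
  · -- conclusion
    have e1 : (ee μ p g (L * (L + 3)) y0 r0) ^ (1 / p) ≤ ENNReal.ofReal (KC ^ (1 / p)) *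
        (ee μ p g (2 * (L * (L + 3)) + 1) x r) ^ (1 / p) := by
      refine (ENNReal.rpow_le_rpow he0 hip).trans ?_
      rw [ENNReal.mul_rpow_of_nonneg _ _ hip, ENNReal.ofReal_rpow_of_pos hKC]
    calc ENNReal.ofReal (1 - mean μ φ x r)
        ≤ ENNReal.ofReal ((1 - mean μ φ y0 r0) + |mean μ φ y0 r0 - mean μ φ x r|) := by
          refine ENNReal.ofReal_le_ofReal ?_
          have := le_abs_self (mean μ φ y0 r0 - mean μ φ x r)
          linarith
      _ ≤ ENNReal.ofReal (1 - mean μ φ y0 r0) +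
          ENNReal.ofReal |mean μ φ y0 r0 - mean μ φ x r| := ENNReal.ofReal_add_le
      _ ≤ 2 * ENNReal.ofReal K1 * (ENNReal.ofReal (KC ^ (1 / p)) *
            (ee μ p g (2 * (L * (L + 3)) + 1) x r) ^ (1 / p)) +
          ENNReal.ofReal KC * (ee μ p g (2 * (L * (L + 3)) + 1) x r) ^ (1 / p) := by
          refine add_le_add (key.trans ?_) hm0
          gcongr
      _ = ENNReal.ofReal (2 * K1 * KC ^ (1 / p) + KC) *
          (ee μ p g (2 * (L * (L + 3)) + 1) x r) ^ (1 / p) := by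
          rw [ENNReal.ofReal_add (by positivity) hKC.le, ENNReal.ofReal_mul (by positivity),
            ENNReal.ofReal_mul (by norm_num)]
          simp only [ENNReal.ofReal_ofNat]
          ring
  · -- one step
    rintro ⟨y, s⟩ hs hAm
    obtain ⟨z', s', hs', hs8, hdz', hAz', hez', hmz'⟩ := hB' V φ g hS.meas hS.mphi hS.nonneg
      hS.le_one hS.ug y s hs hAm
    obtain ⟨y1, r1, hr1, hr12, hdy1, hAy1, hey1, hmy1⟩ := hA V φ g hS.meas hS.mphi hS.nonneg
      hS.le_one hS.ug z' s' hs' hAz'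
    refine ⟨(y1, r1), hr1, hAy1, ?_, ?_, ?_, ?_⟩
    · simp only
      linarith
    · simp only
      have := dist_triangle y1 z' y
      nlinarith
    · simp only
      have e2 : ee μ p g (L * (L + 3)) y1 r1 ≤
          ENNReal.ofReal (2 ^ (-p)) * ee μ p g (L * (L + 3)) y s := by
        refine hey1.trans ?_
        calc ENNReal.ofReal KA * ee μ p g (2 * (L * (L + 3)) + 1) z' s'
            ≤ ENNReal.ofReal KA * (ENNReal.ofReal (2 ^ (-p) / KA) *
              ee μ p g (L * (L + 3)) y s) := by gcongr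
          _ = ENNReal.ofReal (2 ^ (-p)) * ee μ p g (L * (L + 3)) y s := by
            rw [← mul_assoc, ← ENNReal.ofReal_mul hKA.le]
            congr 2
            field_simp
      refine (ENNReal.rpow_le_rpow e2 hip).trans ?_
      rw [ENNReal.mul_rpow_of_nonneg _ _ hip, hhalf]
    · simp only
      have e3 : (ee μ p g (2 * (L * (L + 3)) + 1) z' s') ^ (1 / p) ≤
          ENNReal.ofReal ((2 ^ (-p) / KA) ^ (1 / p)) *
            (ee μ p g (L * (L + 3)) y s) ^ (1 / p) := by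
        refine (ENNReal.rpow_le_rpow hez' hip).trans ?_
        rw [ENNReal.mul_rpow_of_nonneg _ _ hip, ENNReal.ofReal_rpow_of_pos (by positivity)]
      calc ENNReal.ofReal |mean μ φ y1 r1 - mean μ φ y s|
          ≤ ENNReal.ofReal (|mean μ φ z' s' - mean μ φ y s| +
              |mean μ φ y1 r1 - mean μ φ z' s'|) := by
            refine ENNReal.ofReal_le_ofReal ?_
            have := abs_sub_le (mean μ φ y1 r1) (mean μ φ z' s') (mean μ φ y s)
            linarith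
        _ ≤ ENNReal.ofReal |mean μ φ z' s' - mean μ φ y s| +
            ENNReal.ofReal |mean μ φ y1 r1 - mean μ φ z' s'| := ENNReal.ofReal_add_le
        _ ≤ ENNReal.ofReal KB * (ee μ p g (L * (L + 3)) y s) ^ (1 / p) +
            ENNReal.ofReal KA * (ENNReal.ofReal ((2 ^ (-p) / KA) ^ (1 / p)) *
              (ee μ p g (L * (L + 3)) y s) ^ (1 / p)) := by
            refine add_le_add hmz' (hmy1.trans ?_)
            gcongr
        _ = ENNReal.ofReal K1 * (ee μ p g (L * (L + 3)) y s) ^ (1 / p) := by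
            rw [hK1d, ENNReal.ofReal_add hKB.le (by positivity), ENNReal.ofReal_mul hKA.le]
            ring

end Pool.Agent.W351.FD.Iter
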